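import Pool.Agent.Helper6.E.Defs

/-! Packet E2: four facts on the trace exponential. -/

namespace Pool.Agent.Helper83.E

open Matrix Equiv Pool.Agent.Helper15.An Pool.Agent.Helper6.E
open scoped ComplexOrder

variable {d : Type} [Fintype d] [DecidableEq d]

theorem herm_smul {X : Matrix d d ℂ} (hX : X.IsHermitian) (t : ℝ) : (t • X).IsHermitian := by
  unfold Matrix.IsHermitian
  rw [conjTranspose_smul, hX.eq]; simp

theorem herm_conj {X u : Matrix d d ℂ} (hX : X.IsHermitian) : (uᴴ * X * u).IsHermitian := by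
  unfold Matrix.IsHermitian
  rw [conjTranspose_mul, conjTranspose_mul, conjTranspose_conjTranspose, hX.eq, Matrix.mul_assoc]

/-- the exponential commutes with conjugation by a matrix with orthonormal columns -/
theorem exp_conj {u : Matrix d d ℂ} (hu : uᴴ * u = 1) (M : Matrix d d ℂ) :
    NormedSpace.exp (uᴴ * M * u) = uᴴ * NormedSpace.exp M * u := by
  have hu' : u * uᴴ = 1 := mul_eq_one_comm.1 hu
  let V : (Matrix d d ℂ)ˣ := ⟨uᴴ, u, hu, hu'⟩
  exact Matrix.exp_units_conj V M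

theorem smul_conj (u M : Matrix d d ℂ) (t : ℝ) : t • (uᴴ * M * u) = uᴴ * (t • M) * u := by
  rw [Matrix.mul_smul, Matrix.smul_mul]

theorem tre_fresh {Ω : Type} [Fintype Ω] (a : Ω → Matrix d d ℂ) (ha : ∀ ω, (a ω)ᴴ * a ω = 1)
    (hd : 0 < Fintype.card d)
    (hdes : ∀ M : Matrix d d ℂ, M.PosSemidef →
      ((2 * (Fintype.card Ω : ℝ) * (trace M).re / Fintype.card d) • (1 : Matrix d d ℂ) -
        ∑ ω, (a ω)ᴴ * M * a ω).PosSemidef)
    {X : Matrix d d ℂ} (hX : X.IsHermitian) (t : ℝ) :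
    ∑ ω, tre ((1 / 2 : ℝ) • (X + (a ω)ᴴ * X * a ω)) (2 * t) ≤
      2 * Fintype.card Ω * (tre X t) ^ 2 / Fintype.card d := by
  have hXt : (t • X).IsHermitian := herm_smul hX t
  calc ∑ ω, tre ((1 / 2 : ℝ) • (X + (a ω)ᴴ * X * a ω)) (2 * t)
      ≤ ∑ ω, (trace (NormedSpace.exp (t • X) *
          ((a ω)ᴴ * NormedSpace.exp (t • X) * a ω))).re := by
        refine Finset.sum_le_sum fun ω _ => ?_
        have h1 : (2 * t) • ((1 / 2 : ℝ) • (X + (a ω)ᴴ * X * a ω)) =
            t • X + (a ω)ᴴ * (t • X) * a ω := by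
          rw [smul_smul, show 2 * t * (1 / 2 : ℝ) = t by ring, smul_add, smul_conj]
        unfold tre
        rw [h1, ← exp_conj (ha ω)]
        exact golden_thompson hXt (herm_conj hXt)
    _ = (trace (NormedSpace.exp (t • X) *
          ∑ ω, (a ω)ᴴ * NormedSpace.exp (t • X) * a ω)).re := by
        rw [Matrix.mul_sum, Matrix.trace_sum, Complex.re_sum]
    _ ≤ (trace (NormedSpace.exp (t • X) *
          ((2 * (Fintype.card Ω : ℝ) * (trace (NormedSpace.exp (t • X))).re / Fintype.card d) •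
            (1 : Matrix d d ℂ)))).re :=
        trace_mul_mono (exp_posSemidef hXt) (hdes _ (exp_posSemidef hXt))
    _ = 2 * Fintype.card Ω * (tre X t) ^ 2 / Fintype.card d := by
        rw [Matrix.mul_smul, Matrix.mul_one, Matrix.trace_smul]
        unfold tre
        simp only [Complex.real_smul, Complex.re_ofReal_mul]
        ring

theorem exp_half_sq (X : Matrix d d ℂ) (t : ℝ) :
    NormedSpace.exp ((t / 2) • X) * NormedSpace.exp ((t / 2) • X) =
      NormedSpace.exp (t • X) := by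
  rw [← Matrix.exp_add_of_commute _ _ (Commute.refl _), ← add_smul]
  congr 2
  ring

/-- `tr (P Q) ≤ (tr P² + tr Q²) / 2` for Hermitian matrices -/
theorem trace_mul_le_sq {P Q : Matrix d d ℂ} (hP : P.IsHermitian) (hQ : Q.IsHermitian) :
    2 * (trace (P * Q)).re ≤ (trace (P * P)).re + (trace (Q * Q)).re := by
  have h : 0 ≤ (trace ((P - Q) * (P - Q))).re := by
    have h1 : ((P - Q)ᴴ * (P - Q)).PosSemidef := posSemidef_conjTranspose_mul_self _
    have h2 : (P - Q)ᴴ = P - Q := by rw [conjTranspose_sub, hP.eq, hQ.eq]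
    rw [h2] at h1
    exact (Complex.nonneg_iff.1 h1.trace_nonneg).1
  rw [Matrix.sub_mul, Matrix.mul_sub, Matrix.mul_sub, Matrix.trace_sub, Matrix.trace_sub,
    Matrix.trace_sub, Matrix.trace_mul_comm Q P] at h
  simp only [Complex.sub_re] at h
  linarith

theorem tre_conj_le {X u : Matrix d d ℂ} (hX : X.IsHermitian) (hu : uᴴ * u = 1) (t : ℝ) :
    tre ((1 / 2 : ℝ) • (X + uᴴ * X * u)) t ≤ tre X t := by
  have hu' : u * uᴴ = 1 := mul_eq_one_comm.1 hu
  have hXt : ((t / 2) • X).IsHermitian := herm_smul hX _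
  have h1 : t • ((1 / 2 : ℝ) • (X + uᴴ * X * u)) = (t / 2) • X + uᴴ * ((t / 2) • X) * u := by
    rw [smul_smul, show t * (1 / 2 : ℝ) = t / 2 by ring, smul_add, smul_conj]
  unfold tre
  rw [h1]
  refine (golden_thompson hXt (herm_conj hXt)).trans ?_
  rw [exp_conj hu]
  set P := NormedSpace.exp ((t / 2) • X) with hPdef
  have hP : P.IsHermitian := (exp_posSemidef hXt).isHermitian
  have h2 := trace_mul_le_sq hP (herm_conj (u := u) hP)
  have h3 : trace ((uᴴ * P * u) * (uᴴ * P * u)) = trace (P * P) := by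
    have : (uᴴ * P * u) * (uᴴ * P * u) = uᴴ * (P * P) * u := by
      calc (uᴴ * P * u) * (uᴴ * P * u) = uᴴ * P * (u * uᴴ) * P * u := by
            simp only [Matrix.mul_assoc]
        _ = uᴴ * (P * P) * u := by rw [hu', Matrix.mul_one, Matrix.mul_assoc uᴴ P P]
    rw [this, Matrix.mul_assoc, Matrix.trace_mul_comm, Matrix.mul_assoc, hu', Matrix.mul_one]
  rw [h3] at h2
  rw [← exp_half_sq X t, ← hPdef]
  linarith

theorem tre_start {e : Type} [Fintype e] [DecidableEq e] {J : Matrix d e ℂ} (hJ : Jᴴ * J = 1)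
    {t : ℝ} (ht : 0 ≤ t) :
    tre (J * Jᴴ) t ≤ Fintype.card d + (Real.exp t - 1) * Fintype.card e := by
  have hP : (J * Jᴴ).PosSemidef := posSemidef_self_mul_conjTranspose J
  have hPP : (J * Jᴴ) * (J * Jᴴ) = J * Jᴴ := by
    calc (J * Jᴴ) * (J * Jᴴ) = J * (Jᴴ * J) * Jᴴ := by simp only [Matrix.mul_assoc]
      _ = J * Jᴴ := by rw [hJ, Matrix.mul_one]
  have hP1 : ((1 : ℝ) • (1 : Matrix d d ℂ) - J * Jᴴ).PosSemidef := by
    have h : ((1 : Matrix d d ℂ) - J * Jᴴ)ᴴ * (1 - J * Jᴴ) = 1 - J * Jᴴ := by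
      rw [conjTranspose_sub, conjTranspose_one, hP.isHermitian.eq, Matrix.mul_sub, Matrix.sub_mul,
        Matrix.mul_one, Matrix.sub_mul, hPP]
      simp
    have h2 : (((1 : Matrix d d ℂ) - J * Jᴴ)ᴴ * (1 - J * Jᴴ)).PosSemidef :=
      posSemidef_conjTranspose_mul_self _
    rw [h] at h2
    simpa using h2
  have h3 : ((1 : ℝ) • (1 : Matrix d d ℂ) + (Real.exp t - 1) • (J * Jᴴ) -
      NormedSpace.exp (t • (J * Jᴴ))).PosSemidef := by
    refine affine_sub_exp hP.isHermitian t 1 (Real.exp t - 1) fun i => ?_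
    exact exp_le_chord t _ (hP.eigenvalues_nonneg i) (eigenvalues_le_of hP.isHermitian 1 hP1 i)
  have h4 := (Complex.nonneg_iff.1 h3.trace_nonneg).1
  have h5 : trace (J * Jᴴ) = (Fintype.card e : ℂ) := by
    rw [Matrix.trace_mul_comm, hJ, Matrix.trace_one]
  rw [Matrix.trace_sub, Matrix.trace_add, Matrix.trace_smul, Matrix.trace_smul, Matrix.trace_one,
    h5] at h4
  unfold tre
  simp only [Complex.sub_re, Complex.add_re, Complex.real_smul, Complex.re_ofReal_mul,
    Complex.natCast_re] at h4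
  linarith

theorem exp_qf_le_tre {X : Matrix d d ℂ} (hX : X.IsHermitian) {t : ℝ} (ht : 0 ≤ t)
    (v : d → ℂ) (hv : nrm2 v = 1) :
    Real.exp (t * qf X v) ≤ tre X t := by
  have hne : Nonempty d := by
    by_contra h
    rw [not_nonempty_iff] at h
    simp [nrm2] at hv
  obtain ⟨i, -, hi⟩ := Finset.exists_max_image Finset.univ hX.eigenvalues Finset.univ_nonempty
  have h1 := posSemidef_of_eigenvalues_le hX (hX.eigenvalues i) fun j => hi j (Finset.mem_univ j)
  have h2 := qf_nonneg h1 v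
  rw [qf_sub, qf_smul, qf_one, hv, mul_one] at h2
  unfold tre
  rw [trace_exp_smul hX t]
  calc Real.exp (t * qf X v) ≤ Real.exp (t * hX.eigenvalues i) :=
        Real.exp_le_exp.2 (mul_le_mul_of_nonneg_left (by linarith) ht)
    _ ≤ ∑ i, Real.exp (t * hX.eigenvalues i) :=
        Finset.single_le_sum (f := fun i => Real.exp (t * hX.eigenvalues i))
          (fun j _ => (Real.exp_pos _).le) (Finset.mem_univ i)

end Pool.Agent.Helper83.E
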