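import Pool.Agent.Helper6.E.Defs

/-! Packet E4: most letter sequences of length `2h` use at least `h` distinct first coordinates. -/

namespace Pool.Agent.Helper83.E

open Pool.Agent.Helper6.E

theorem self_pow_le (h : ℕ) : h ^ h ≤ 3 ^ h * h.factorial := by
  have h1 : ((h : ℝ) ^ h) / (h.factorial : ℝ) ≤ Real.exp h :=
    Real.pow_div_factorial_le_exp h (Nat.cast_nonneg _) h
  have h2 : Real.exp h ≤ 3 ^ h := by
    have : Real.exp h = Real.exp 1 ^ h := by rw [← Real.exp_nat_mul, mul_one]
    rw [this]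
    exact pow_le_pow_left₀ (Real.exp_pos _).le (by have := Real.exp_one_lt_d9; linarith) h
  have h3 : (0 : ℝ) < h.factorial := by exact_mod_cast h.factorial_pos
  rw [div_le_iff₀ h3] at h1
  have h4 : ((h ^ h : ℕ) : ℝ) ≤ ((3 ^ h * h.factorial : ℕ) : ℝ) := by
    push_cast
    exact h1.trans (mul_le_mul_of_nonneg_right h2 h3.le)
  exact_mod_cast h4

/-- functions into `Fin K` with small image -/
theorem card_small_image (K h m : ℕ) (hK : h ≤ K) :
    (Finset.univ.filter (fun g : Fin m → Fin K => (Finset.univ.image g).card < h)).card ≤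
      K.choose h * h ^ m := by
  classical
  have h1 : Finset.univ.filter (fun g : Fin m → Fin K => (Finset.univ.image g).card < h) ⊆
      (Finset.powersetCard h (Finset.univ : Finset (Fin K))).biUnion
        (fun S => Fintype.piFinset (fun _ : Fin m => S)) := by
    intro g hg
    rw [Finset.mem_filter] at hg
    rw [Finset.mem_biUnion]
    obtain ⟨S, hS1, hS2⟩ := Finset.exists_superset_card_eq (s := Finset.univ.image g) (n := h)
      hg.2.le (by simpa using hK)
    refine ⟨S, Finset.mem_powersetCard.2 ⟨Finset.subset_univ _, hS2⟩, ?_⟩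
    rw [Fintype.mem_piFinset]
    exact fun i => hS1 (Finset.mem_image_of_mem _ (Finset.mem_univ i))
  refine (Finset.card_le_card h1).trans (Finset.card_biUnion_le.trans ?_)
  rw [Finset.sum_congr rfl (g := fun _ => h ^ m)]
  · simp [Finset.card_powersetCard]
  · intro S hS
    rw [Fintype.card_piFinset]
    simp [(Finset.mem_powersetCard.1 hS).2]

theorem few_fresh (K h : ℕ) (hK : 32 * h ≤ K) :
    Nat.card {l : Fin (2 * h) → Fin K × Bool // fr (List.ofFn l) < h} * 4 ^ h ≤
      (2 * K) ^ (2 * h) := by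
  classical
  have hfr : ∀ l : Fin (2 * h) → Fin K × Bool,
      fr (List.ofFn l) = (Finset.univ.image (fun i => (l i).1)).card := by
    intro l
    unfold fr
    congr 1
    ext x
    simp [List.mem_ofFn]
  have h1 : Nat.card {l : Fin (2 * h) → Fin K × Bool // fr (List.ofFn l) < h} ≤
      (Finset.univ.filter (fun g : Fin (2 * h) → Fin K =>
        (Finset.univ.image g).card < h)).card * 2 ^ (2 * h) := by
    have h2 : (Finset.univ.filter (fun g : Fin (2 * h) → Fin K =>
        (Finset.univ.image g).card < h)).card * 2 ^ (2 * h) =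
        Nat.card ({g : Fin (2 * h) → Fin K // (Finset.univ.image g).card < h} ×
          (Fin (2 * h) → Bool)) := by
      rw [Nat.card_prod, Nat.card_eq_fintype_card, Fintype.card_subtype, Nat.card_eq_fintype_card]
      simp
    rw [h2]
    refine Nat.card_le_card_of_injective
      (fun l => (⟨fun i => (l.1 i).1, by rw [← hfr]; exact l.2⟩, fun i => (l.1 i).2)) ?_
    intro l l' hl
    simp only [Prod.mk.injEq, Subtype.mk.injEq] at hl
    apply Subtype.ext
    funext i
    exact Prod.ext (congrFun hl.1 i) (congrFun hl.2 i)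
  have h3 := card_small_image K h (2 * h) (by omega)
  have h4 : K.choose h * h ^ h ≤ 3 ^ h * K ^ h := by
    calc K.choose h * h ^ h ≤ K.choose h * (3 ^ h * h.factorial) :=
          Nat.mul_le_mul_left _ (self_pow_le h)
      _ = 3 ^ h * (h.factorial * K.choose h) := by ring
      _ = 3 ^ h * K.descFactorial h := by rw [Nat.descFactorial_eq_factorial_mul_choose]
      _ ≤ 3 ^ h * K ^ h := Nat.mul_le_mul_left _ (Nat.descFactorial_le_pow K h)
  have h5 : (12 * h) ^ h ≤ K ^ h := Nat.pow_le_pow_left (by omega) h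
  calc Nat.card {l : Fin (2 * h) → Fin K × Bool // fr (List.ofFn l) < h} * 4 ^ h
      ≤ ((Finset.univ.filter (fun g : Fin (2 * h) → Fin K =>
        (Finset.univ.image g).card < h)).card * 2 ^ (2 * h)) * 4 ^ h :=
        Nat.mul_le_mul_right _ h1
    _ ≤ ((K.choose h * h ^ (2 * h)) * 2 ^ (2 * h)) * 4 ^ h := by gcongr
    _ = (K.choose h * h ^ h) * (h ^ h * 4 ^ h * 2 ^ (2 * h)) := by rw [two_mul, pow_add]; ring
    _ ≤ (3 ^ h * K ^ h) * (h ^ h * 4 ^ h * 2 ^ (2 * h)) := Nat.mul_le_mul_right _ h4
    _ = (12 * h) ^ h * K ^ h * 2 ^ (2 * h) := by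
        rw [show (12 * h) ^ h = 3 ^ h * 4 ^ h * h ^ h by rw [← mul_pow, ← mul_pow]; norm_num]; ring
    _ ≤ K ^ h * K ^ h * 2 ^ (2 * h) := by gcongr
    _ = (2 * K) ^ (2 * h) := by rw [mul_pow, two_mul h, pow_add K]; ring

end Pool.Agent.Helper83.E
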